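import Pool.Agent.AT8.Stmts2
import Pool.Agent.Helper25_KF.Idm
import Pool.Agent.Helper63_AT3.INR
import Pool.Agent.Helper50_PP.Chi
import Pool.Agent.Helper85_AT3.LSB

/-!
# Squad AT8, row FRY: the values of the coherent idempotent at the regular elements
-/

open scoped BigOperators

noncomputable section

namespace Pool.Agent.PP.T8.H14

open Pool.Agent.Helper51_AWC Pool.Agent.Helper79_WRA Pool.Agent.PP Pool.Agent.PP.KF
open Pool.Agent.PP.K9 Pool.Agent.PP.K9.H97 Pool.Agent.PP.H75 Pool.Agent.PP.T3 Pool.Agent.PP.T2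

attribute [local instance] Ideal.Quotient.field

section tr

variable {H : Type} [Group H] [Finite H]

/-- the value of an irreducible character at an idempotent is a natural number -/
theorem chv_idem {j : H → ℂ} (hj : mulF j j = j) {κ : H → ℂ} (hκ : κ ∈ Irr H) :
    ∃ n : ℕ, chv j κ = n := by
  have := Fintype.ofFinite H
  obtain ⟨n, ρ, hρ, rfl⟩ := hκ
  have h1 : act ρ j * act ρ j = act ρ j := by
    have h2 : act ρ j * act ρ j = ∑ g, ∑ h, (j h * j (h⁻¹ * g)) • ρ g := by
      rw [act, Finset.sum_mul]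
      rw [Finset.sum_comm]
      refine Finset.sum_congr rfl fun h _ => ?_
      rw [Finset.mul_sum, ← Equiv.sum_comp (Equiv.mulLeft h)
        (fun g => (j h * j (h⁻¹ * g)) • ρ g)]
      refine Finset.sum_congr rfl fun g _ => ?_
      rw [Equiv.coe_mulLeft, inv_mul_cancel_left, map_mul, smul_mul_smul_comm]
    rw [h2, act]
    refine Finset.sum_congr rfl fun g _ => ?_
    rw [← Finset.sum_smul]
    congr 1
    have h3 := congrFun hj g
    rw [mulF, finsum_eq_sum_of_fintype] at h3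
    exact h3
  have h4 := (LinearMap.isProj_iff_isIdempotentElem (act ρ j)).2 h1
  obtain ⟨p, hp⟩ := h4
  refine ⟨Module.finrank ℂ p, ?_⟩
  have h5 := hp.trace
  rw [act_trace] at h5
  rw [chv, finsum_eq_sum_of_fintype]
  exact h5

/-- a linear functional on the class functions is determined by the values at the irreducible
characters: here it is applied to `s ↦ f (u s)`, `u` central -/
theorem sum_cent {f : H → ℂ} (hf : ∀ x y, f (y * x * y⁻¹) = f x) {u : H}
    (hu : ∀ c, u * c = c * u) {a a' : H → ℂ} {r : ℂ}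
    (h : ∀ κ ∈ Irr H, chv a κ = r * chv a' κ) :
    ∑ᶠ s, a s * f (u * s) = r * ∑ᶠ s, a' s * f (u * s) := by
  have := Fintype.ofFinite H
  have hI : (Irr H).Finite := irr_finite'
  have := hI.fintype
  obtain ⟨m, hm⟩ := H50.decomp f hf
  have h1 : ∀ κ : Irr H, ∃ k : ℂ, ∀ s, (κ : H → ℂ) (u * s) = k * (κ : H → ℂ) s := by
    intro κ
    obtain ⟨k, -, hk⟩ := T3.H63.cent_root κ.2 hu (q := Nat.card H) (pow_card_eq_one')
    refine ⟨k, fun s => ?_⟩
    have := hk 1 s
    rwa [pow_one, pow_one] at this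
  choose k hk using h1
  have h2 : ∀ b : H → ℂ, ∑ᶠ s, b s * f (u * s) = ∑ κ : Irr H, m κ * k κ * chv b κ := by
    intro b
    rw [finsum_eq_sum_of_fintype]
    have h3 : ∀ s, b s * f (u * s) = ∑ κ : Irr H, m κ * k κ * (b s * (κ : H → ℂ) s) := by
      intro s
      rw [hm, Finset.sum_apply, Finset.mul_sum]
      refine Finset.sum_congr rfl fun κ _ => ?_
      rw [Pi.smul_apply, smul_eq_mul, hk]
      ring
    simp_rw [h3]
    rw [Finset.sum_comm]
    refine Finset.sum_congr rfl fun κ _ => ?_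
    rw [← Finset.mul_sum, chv, finsum_eq_sum_of_fintype]
  rw [h2, h2, Finset.mul_sum]
  refine Finset.sum_congr rfl fun κ _ => ?_
  rw [h κ κ.2]
  ring

end tr

/-- a central idempotent which is not zero has a character -/
theorem irrE_nonempty (M : Ideal (integralClosure ℤ ℂ)) [M.IsMaximal] {H : Type} [Group H]
    [Finite H] {b : H → FF M} (hb : IsIdem b) (h0 : b ≠ 0) : ∃ κ, κ ∈ IrrE M b := by
  by_contra hcon
  push Not at hcon
  apply h0
  funext g
  have h1 := ((KF.H25.idm M H b hb).1 g).2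
  rw [← h1]
  have h2 : IrrE M b = ∅ := Set.eq_empty_of_forall_notMem hcon
  rw [eh, h2, finsum_mem_empty, mul_zero, rr_zero]
  rfl

/-- the values of the irreducible characters at the lift of a central idempotent -/
theorem chv_eh' (M : Ideal (integralClosure ℤ ℂ)) [M.IsMaximal] {H : Type} [Group H]
    [Finite H] {b : H → FF M} (hb : IsIdem b) {κ : H → ℂ} (hκ : κ ∈ Irr H) :
    (res M b κ = 1 → chv (eh M b) κ = κ 1) ∧ (res M b κ ≠ 1 → chv (eh M b) κ = 0) := by
  classical
  have h0 := (KF.H25.idm M H b hb).2.2 κ hκ (fun g => if g = 1 then 1 else 0)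
  have h1 : mulF (eh M b) (fun g => if g = 1 then 1 else 0) = eh M b := by
    have := Fintype.ofFinite H
    funext x
    rw [mulF, finsum_eq_sum_of_fintype, Finset.sum_eq_single x]
    · rw [if_pos (inv_mul_cancel x), mul_one]
    · intro y _ hy
      rw [if_neg, mul_zero]
      intro h2
      exact hy (inv_mul_eq_one.1 h2)
    · intro h
      exact absurd (Finset.mem_univ x) h
  have h2 : chv (fun g : H => if g = 1 then (1 : ℂ) else 0) κ = κ 1 := by
    have := Fintype.ofFinite H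
    rw [chv, finsum_eq_sum_of_fintype, Finset.sum_eq_single 1]
    · rw [if_pos rfl, one_mul]
    · intro y _ hy
      rw [if_neg hy, zero_mul]
    · intro h
      exact absurd (Finset.mem_univ _) h
  rw [h1, h2] at h0
  exact h0

theorem irrE_equiv {M : Ideal (integralClosure ℤ ℂ)} [M.IsMaximal] {A B : Type} [Group A]
    [Finite A] [Group B] [Finite B] (φ : A ≃* B) {b : A → FF M} (hb : IsCl b) {κ : B → ℂ}
    (h : κ ∈ IrrE M (fun y => b (φ.symm y))) : (fun a => κ (φ a)) ∈ IrrE M b := by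
  have h1 := (K9.H3.psi M A B (φ : A →* B) φ.surjective b hb).1
  rw [T3.H85.push_equiv'] at h1
  rw [h1] at h
  exact h.2

/-- FRY -/
theorem fry (lcl : LclStmt) (rg1 : Rg1Stmt) (prj : PrjStmt) (omi : OmiStmt) (knz : KnzStmt) :
    FryStmt := by
  intro ℓ _ M _ hM G _ _ e V γ b d c ε hD i hi u hu
  have hL := hD.ld
  have hLc := hD.lc u hu
  have hVX : V ≤ Cu u := fun v hv => Subgroup.mem_centralizer_singleton_iff.2 (hL.ab v hv u hu.1)
  have hCX : Subgroup.centralizer (V : Set G) ≤ Cu u := fun g hg =>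
    Subgroup.mem_centralizer_singleton_iff.2 (Subgroup.mem_centralizer_iff.1 hg u hu.1).symm
  obtain ⟨hLd, hix, hVc, hCc, hdc⟩ := T3.H85.lsb ℓ M hM G e V γ hL u hu.1 (b u) hLc
  have hix1 : ix (V.subgroupOf (Cu u)) (fun t : Cu u => γ t) = 1 := by
    rw [hix]
    exact Subgroup.relIndex_eq_one.2 hu.2.2
  obtain ⟨j, hj, hjs, hjr, hjb, hjf⟩ := lcl ℓ M hM G e V γ hL i hi u hu.1 (b u) hLc
  obtain ⟨jC, hjC⟩ : ∃ jC : Cu u → ℂ, jC = fun t : Cu u => j t := ⟨_, rfl⟩
  obtain ⟨bC, hbC⟩ : ∃ bC : Cu u → FF M, bC = fun t : Cu u => b u t := ⟨_, rfl⟩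
  have hbI : IsIdem bC := by rw [hbC]; exact hLc.blk.blk.1
  have hb0 : bC ≠ 0 := by rw [hbC]; exact hLc.blk.blk.2.1
  have hdg : Dg M bC (d u) := by rw [hbC]; exact hD.dg u hu
  have hLd' : Ld ℓ bC (V.subgroupOf (Cu u)) (fun t : Cu u => γ t) := by rw [hbC]; exact hLd
  have hjRM : ∀ t, jC t ∈ RM M := by rw [hjC]; exact fun t => hj.rm t
  have hjj : mulF jC jC = jC := by
    rw [hjC, ← mulF_res (Cu u) j hjs, hj.id]
  have hjb' : mulF jC (eh M bC) = jC := by
    have h1 := mulF_res (Cu u) (PP.ext0 (Cu u) (eh M bC)) hjs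
    have h2 : (fun t : Cu u => PP.ext0 (Cu u) (eh M bC) t) = eh M bC := by
      funext t
      rw [PP.ext0, dif_pos t.2]
    rw [← hbC] at hjb
    rw [hjb, h2] at h1
    rw [hjC]
    exact h1.symm
  have hidm := KF.H25.idm M (Cu u) bC hbI
  have hcomm : mulF jC (eh M bC) = mulF (eh M bC) jC := by
    apply mulF_comm_of (K := (⊤ : Subgroup (Cu u))) (fun x hx => absurd (Subgroup.mem_top x) hx)
    intro k _
    rw [cj_eq_iff]
    intro x
    exact hidm.2.1.1 x k
  -- the values of the characters at `j`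
  obtain ⟨κ₀, hκ₀⟩ := irrE_nonempty M hbI hb0
  obtain ⟨r, hr⟩ := chv_idem hjj hκ₀.1
  have hout : ∀ κ ∈ Irr (Cu u), κ ∉ IrrE M bC → chv jC κ = 0 := by
    intro κ hκ hκ'
    rw [← hjb', hcomm]
    exact (hidm.2.2 κ hκ jC).2 (fun h => hκ' ⟨hκ, h⟩)
  have hin : ∀ κ ∈ IrrE M bC, chv jC κ = r := by
    intro κ hκ
    rw [← hr]
    have h1 := prj ℓ M hM (Cu u) jC hjRM hjj (fun s => κ s - κ₀ s) (by
      intro x y
      rw [irr_conj hκ.1, irr_conj hκ₀.1]) (by
      intro x hx
      rw [rg1 ℓ M hM (Cu u) bC (V.subgroupOf (Cu u)) (fun t : Cu u => γ t) hLd' hix1 κ hκ κ₀ hκ₀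
        x hx, sub_self])
    have := Fintype.ofFinite (Cu u)
    rw [chv, chv, finsum_eq_sum_of_fintype, finsum_eq_sum_of_fintype, ← sub_eq_zero,
      ← Finset.sum_sub_distrib]
    rw [finsum_eq_sum_of_fintype] at h1
    rw [← h1]
    exact Finset.sum_congr rfl fun s _ => (mul_sub _ _ _).symm
  have hd0 : (d u : ℂ) ≠ 0 := by
    have := hdg.1
    exact_mod_cast this.ne'
  obtain ⟨uC, huC⟩ : ∃ uC : Cu u, (uC : G) = u :=
    ⟨⟨u, Subgroup.mem_centralizer_singleton_iff.2 rfl⟩, rfl⟩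
  have hz : ∀ c : Cu u, uC * c = c * uC := by
    intro c
    apply Subtype.ext
    show (uC : G) * c = c * uC
    rw [huC]
    exact (Subgroup.mem_centralizer_singleton_iff.1 c.2).symm
  refine ⟨r, ?_, ?_⟩
  · intro χ hχ
    rw [hjf χ (fun x y => irr_conj hχ x y)]
    have h1 := sum_cent (f := fun s : Cu u => χ s) (fun x y => by
      show χ ((y * x * y⁻¹ : Cu u) : G) = χ x
      push_cast
      exact irr_conj hχ _ _) hz (a := jC) (a' := eh M bC) (r := r / d u) (by
      intro κ hκ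
      by_cases hκ' : κ ∈ IrrE M bC
      · rw [hin κ hκ', (chv_eh' M hbI hκ).1 hκ'.2, hdg.2 κ hκ', div_mul_cancel₀ _ hd0]
      · rw [hout κ hκ hκ', (chv_eh' M hbI hκ).2 (fun h => hκ' ⟨hκ, h⟩), mul_zero])
    have h2 : fv j u χ = ∑ᶠ s : Cu u, jC s * χ ((uC * s : Cu u) : G) := by
      rw [fv, sum_sub (Cu u) _ (fun x hx => by rw [hjs x hx, zero_mul]), hjC]
      refine finsum_congr fun s => ?_
      rw [Subgroup.coe_mul, huC]
    have h3 : gv M (Cu u) u (b u) χ = ∑ᶠ s : Cu u, eh M bC s * χ ((uC * s : Cu u) : G) := by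
      rw [gv, gbv, ← hbC]
      refine finsum_congr fun s => ?_
      rw [Subgroup.coe_mul, huC]
    rw [h2, h1, vv, h3]
    push_cast
    ring
  · intro κ hκ
    obtain ⟨φ, hφ⟩ : ∃ φ : Subgroup.centralizer ((V.subgroupOf (Cu u) : Subgroup (Cu u)) :
        Set (Cu u)) ≃* Subgroup.centralizer (V : Set G), φ = T3.H85.cequiv hVX hCX := ⟨_, rfl⟩
    have hκ' : (fun t => κ (φ t)) ∈ IrrE M (fun t : Subgroup.centralizer
        ((V.subgroupOf (Cu u) : Subgroup (Cu u)) : Set (Cu u)) => γ ((t : Cu u) : G)) := by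
      have hcl : IsCl (fun t : Subgroup.centralizer
        ((V.subgroupOf (Cu u) : Subgroup (Cu u)) : Set (Cu u)) => γ ((t : Cu u) : G)) :=
        hLd.gam.blk.1.1
      apply irrE_equiv φ hcl
      rw [hφ]
      exact hκ
    have hsupp : ∀ x, x ∉ Cu u → br V (rd M i) x = 0 := fun x hx =>
      H66.br_of_not_mem (fun h => hx (hCX h))
    have hbr : br (V.subgroupOf (Cu u)) (rd M jC) = fun t : Cu u => br V (rd M i) t := by
      funext t
      by_cases ht : (t : G) ∈ Subgroup.centralizer (V : Set G)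
      · rw [H66.br_of_mem ht, H66.br_of_mem ((cent_sub hVX t).2 ht), rd, rd, hjC]
        exact hjr t t.2
      · rw [H66.br_of_not_mem ht, H66.br_of_not_mem (fun h => ht ((cent_sub hVX t).1 h))]
    have hgm : mulF (br (V.subgroupOf (Cu u)) (rd M jC)) (fun t : Cu u => γ t) =
        br (V.subgroupOf (Cu u)) (rd M jC) := by
      rw [hbr, ← mulF_res (Cu u) γ hsupp, hi.gm]
    have hiv : ∀ v ∈ V.subgroupOf (Cu u), ∀ x, jC (v * x * v⁻¹) = jC x := by
      intro v hv x
      rw [hjC]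
      exact hj.iv v hv x
    obtain ⟨hA, hB, hAB⟩ := omi ℓ M hM (Cu u) bC (V.subgroupOf (Cu u)) (fun t : Cu u => γ t) hLd'
      jC hjRM hiv hgm κ₀ hκ₀ (fun t => κ (φ t)) hκ'
    obtain ⟨hQ, -⟩ := knz ℓ M hM G e V γ hL c hD.dc
    obtain ⟨hX, hX'⟩ := hD.cg u hu
    have hS : (∑ᶠ t : Subgroup.centralizer
        ((V.subgroupOf (Cu u) : Subgroup (Cu u)) : Set (Cu u)), jC t * κ (φ t)) =
        ∑ᶠ t : Subgroup.centralizer (V : Set G), j t * κ t := by
      rw [← finsum_comp_equiv φ.toEquiv]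
      refine finsum_congr fun t => ?_
      rw [hjC, hφ]
      rfl
    have hc0 : (c : ℂ) ≠ 0 := by
      have := hD.dc.1
      exact_mod_cast this.ne'
    have hV0 : (Nat.card V : ℂ) ≠ 0 := by exact_mod_cast Nat.card_pos.ne'
    have hC0 : (Nat.card (Subgroup.centralizer (V : Set G)) : ℂ) ≠ 0 := by
      exact_mod_cast Nat.card_pos.ne'
    have hκ1 : κ (φ 1) = c := by
      rw [map_one]
      exact hD.dc.2 κ hκ
    rw [hix1, Nat.cast_one, one_mul] at hAB
    rw [hr, hdg.2 κ₀ hκ₀, hVc] at hA hAB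
    rw [hS, hVc, hCc, hκ1] at hB
    rw [hS, hCc, hκ1] at hAB
    obtain ⟨S, hSd⟩ : ∃ S : ℂ, S = ∑ᶠ t : Subgroup.centralizer (V : Set G), j t * κ t := ⟨_, rfl⟩
    rw [← hSd] at hB hAB
    have e1 : rr M S = rr M (∑ᶠ t : Subgroup.centralizer (V : Set G), i t * κ t) := by
      have := Fintype.ofFinite (Subgroup.centralizer (V : Set G))
      have hk : ∀ t, κ t ∈ RM M := fun t => RM_of_int (irr_integral hκ.1 t)
      rw [hSd, finsum_eq_sum_of_fintype, finsum_eq_sum_of_fintype,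
        rr_sum _ _ (fun (t : Subgroup.centralizer (V : Set G)) _ =>
          (RM M).mul_mem (hj.rm (t : G)) (hk t)),
        rr_sum _ _ (fun (t : Subgroup.centralizer (V : Set G)) _ =>
          (RM M).mul_mem (hi.ip.rm (t : G)) (hk t))]
      refine Finset.sum_congr rfl fun t _ => ?_
      rw [rr_mul (hj.rm t) (hk t), rr_mul (hi.ip.rm t) (hk t), hjr t (hCX t.2)]
    rw [← e1]
    have e2 : S = (Nat.card (Subgroup.centralizer (V : Set G)) * S / (Nat.card V * c)) *
        ((Nat.card V * c : ℂ) / Nat.card (Subgroup.centralizer (V : Set G))) := by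
      field_simp
    have e3 : (r : ℂ) * ((Nat.card (Cu u) * c : ℂ) /
        (Nat.card (Subgroup.centralizer (V : Set G)) * d u)) =
        (Nat.card (Cu u) * r / (Nat.card V * d u)) *
        ((Nat.card V * c : ℂ) / Nat.card (Subgroup.centralizer (V : Set G))) := by
      field_simp
    have e4 : rr M ((r : ℂ) * ((Nat.card (Cu u) * c : ℂ) /
        (Nat.card (Subgroup.centralizer (V : Set G)) * d u))) = (r : FF M) * (ε u : FF M) := by
      rw [rr_mul (rr_nat r).1 hX, hX', (rr_nat r).2]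
    rw [e2, rr_mul hB hQ, ← hAB, ← rr_mul hA hQ, ← e3, e4]
    push_cast
    rfl

end Pool.Agent.PP.T8.H14
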